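import Pool.Agent.Helper16.MD.Stmts

set_option autoImplicit false

open Finset Filter
open scoped ComplexConjugate

namespace Pool.Agent.Helper16.MD

/-! ### blocks of primes -/

theorem kat_disj (D : ℕ) {i i' : ℕ} (h : i ≠ i') : Disjoint (PB D i) (PB D i') := by
  rw [Finset.disjoint_left]
  intro p hp hp'
  unfold PB at hp hp'
  rw [Finset.mem_filter, Finset.mem_Ioc] at hp hp'
  rcases lt_or_gt_of_ne h with hlt | hlt
  · have : 2 ^ (i + 1) ≤ 2 ^ i' := Nat.pow_le_pow_right (by norm_num) hlt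
    omega
  · have : 2 ^ (i' + 1) ≤ 2 ^ i := Nat.pow_le_pow_right (by norm_num) hlt
    omega

theorem kat_pd (D : ℕ) (R : Finset ℕ) :
    Set.PairwiseDisjoint (R : Set ℕ) (PB D) := fun _ _ _ _ h => kat_disj D h

theorem kat_sum {M : Type} [AddCommMonoid M] (D : ℕ) (R₁ R₂ R₃ : Finset ℕ) (h : ℕ → ℕ → ℕ → M) :
    ∑ p ∈ R₁.biUnion (PB D), ∑ q ∈ R₂.biUnion (PB D), ∑ r ∈ R₃.biUnion (PB D), h p q r =
      ∑ i ∈ R₁, ∑ j ∈ R₂, ∑ k ∈ R₃, ∑ s ∈ Bk D i j k, h s.1 s.2.1 s.2.2 := by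
  rw [Finset.sum_biUnion (kat_pd D R₁)]
  apply Finset.sum_congr rfl
  intro i _
  have e1 : ∀ p, ∑ q ∈ R₂.biUnion (PB D), ∑ r ∈ R₃.biUnion (PB D), h p q r =
      ∑ j ∈ R₂, ∑ q ∈ PB D j, ∑ k ∈ R₃, ∑ r ∈ PB D k, h p q r := by
    intro p
    rw [Finset.sum_biUnion (kat_pd D R₂)]
    apply Finset.sum_congr rfl
    intro j _
    apply Finset.sum_congr rfl
    intro q _
    rw [Finset.sum_biUnion (kat_pd D R₃)]
  simp_rw [e1]
  rw [Finset.sum_comm]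
  apply Finset.sum_congr rfl
  intro j _
  have e2 : ∀ p, ∑ q ∈ PB D j, ∑ k ∈ R₃, ∑ r ∈ PB D k, h p q r =
      ∑ k ∈ R₃, ∑ q ∈ PB D j, ∑ r ∈ PB D k, h p q r := by
    intro p; rw [Finset.sum_comm]
  simp_rw [e2]
  rw [Finset.sum_comm]
  apply Finset.sum_congr rfl
  intro k _
  unfold Bk
  rw [Finset.sum_product]
  apply Finset.sum_congr rfl
  intro p _
  rw [Finset.sum_product]

theorem kat_mem {D i p : ℕ} (h : p ∈ PB D i) : p.Prime ∧ 2 ^ i < p ∧ p ≤ 2 ^ (i + 1) ∧ ¬ p ∣ D := by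
  unfold PB at h
  rw [Finset.mem_filter, Finset.mem_Ioc] at h
  exact ⟨h.2.1, h.1.1, h.1.2, h.2.2⟩

theorem kat_pr {D i j k : ℕ} {s : ℕ × ℕ × ℕ} (h : s ∈ Bk D i j k) :
    2 ^ (i + j + k) ≤ pr s ∧ pr s ≤ 8 * 2 ^ (i + j + k) ∧ 1 ≤ pr s ∧ (pr s).Coprime D := by
  unfold Bk at h
  rw [Finset.mem_product, Finset.mem_product] at h
  obtain ⟨h1, h2, h3⟩ := h
  obtain ⟨a1, a2, a3, a4⟩ := kat_mem h1
  obtain ⟨b1, b2, b3, b4⟩ := kat_mem h2
  obtain ⟨c1, c2, c3, c4⟩ := kat_mem h3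
  have e : 2 ^ (i + j + k) = 2 ^ i * (2 ^ j * 2 ^ k) := by rw [pow_add, pow_add]; ring
  have e2 : 8 * 2 ^ (i + j + k) = 2 ^ (i + 1) * (2 ^ (j + 1) * 2 ^ (k + 1)) := by
    rw [e]; rw [pow_succ, pow_succ, pow_succ]; ring
  unfold pr
  refine ⟨?_, ?_, ?_, ?_⟩
  · rw [e]
    exact Nat.mul_le_mul a2.le (Nat.mul_le_mul b2.le c2.le)
  · rw [e2]
    exact Nat.mul_le_mul a3 (Nat.mul_le_mul b3 c3)
  · exact Nat.mul_pos a1.pos (Nat.mul_pos b1.pos c1.pos)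
  · apply Nat.Coprime.mul_left
    · exact (Nat.Prime.coprime_iff_not_dvd a1).2 a4
    · apply Nat.Coprime.mul_left
      · exact (Nat.Prime.coprime_iff_not_dvd b1).2 b4
      · exact (Nat.Prime.coprime_iff_not_dvd c1).2 c4

/-! ### Cauchy-Schwarz -/

theorem kat_mu (y : ℕ) : ‖((ArithmeticFunction.moebius y : ℤ) : ℂ)‖ ≤ 1 := by
  rw [Complex.norm_intCast]
  have := ArithmeticFunction.abs_moebius_le_one (n := y)
  exact_mod_cast this

theorem kat_cs (f : ℕ → ℂ) (N P0 : ℕ) (B : Finset (ℕ × ℕ × ℕ)) (hP0 : 1 ≤ P0)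
    (hB : ∀ s ∈ B, P0 ≤ pr s) :
    ‖∑ s ∈ B, MS (fun y => f (pr s * y)) (N / pr s)‖ ^ 2 ≤ ((N : ℝ) / P0) *
      ∑ s ∈ B, ∑ t ∈ B, ‖∑ y ∈ Icc 1 (min (N / pr s) (N / pr t)),
        f (pr s * y) * conj (f (pr t * y))‖ := by
  set Y : ℕ := N / P0 with hY
  have hle : ∀ s ∈ B, N / pr s ≤ Y := by
    intro s hs
    exact Nat.div_le_div_left (hB s hs) hP0
  have e1 : ∀ s ∈ B, MS (fun y => f (pr s * y)) (N / pr s) =
      ∑ y ∈ Icc 1 Y, ((ArithmeticFunction.moebius y : ℤ) : ℂ) *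
        (if y ≤ N / pr s then f (pr s * y) else 0) := by
    intro s hs
    unfold MS
    have hsub : Icc 1 (N / pr s) ⊆ Icc 1 Y := Finset.Icc_subset_Icc_right (hle s hs)
    rw [← Finset.sum_subset hsub]
    · apply Finset.sum_congr rfl
      intro y hy
      rw [Finset.mem_Icc] at hy
      rw [if_pos hy.2]
    · intro y hy hy'
      rw [Finset.mem_Icc] at hy hy'
      rw [if_neg (by omega), mul_zero]
  rw [Finset.sum_congr rfl e1, Finset.sum_comm]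
  set G : ℕ → ℂ := fun y => ∑ s ∈ B, (if y ≤ N / pr s then f (pr s * y) else 0) with hG
  have e2 : ∑ y ∈ Icc 1 Y, ∑ s ∈ B, ((ArithmeticFunction.moebius y : ℤ) : ℂ) *
        (if y ≤ N / pr s then f (pr s * y) else 0) =
      ∑ y ∈ Icc 1 Y, ((ArithmeticFunction.moebius y : ℤ) : ℂ) * G y := by
    apply Finset.sum_congr rfl
    intro y _
    rw [hG, Finset.mul_sum]
  rw [e2]
  have h1 : ‖∑ y ∈ Icc 1 Y, ((ArithmeticFunction.moebius y : ℤ) : ℂ) * G y‖ ≤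
      ∑ y ∈ Icc 1 Y, ‖G y‖ := by
    refine (norm_sum_le _ _).trans ?_
    apply Finset.sum_le_sum
    intro y _
    rw [norm_mul]
    have := kat_mu y
    have h2 := norm_nonneg (G y)
    nlinarith
  have h2 : (∑ y ∈ Icc 1 Y, ‖G y‖) ^ 2 ≤ (Y : ℝ) * ∑ y ∈ Icc 1 Y, ‖G y‖ ^ 2 := by
    have := sq_sum_le_card_mul_sum_sq (s := Icc 1 Y) (f := fun y => ‖G y‖)
    simpa using this
  have h3 : ∑ y ∈ Icc 1 Y, ‖G y‖ ^ 2 ≤ ∑ s ∈ B, ∑ t ∈ B, ‖∑ y ∈ Icc 1 (min (N / pr s) (N / pr t)),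
        f (pr s * y) * conj (f (pr t * y))‖ := by
    have e3 : ((∑ y ∈ Icc 1 Y, ‖G y‖ ^ 2 : ℝ) : ℂ) = ∑ s ∈ B, ∑ t ∈ B,
        ∑ y ∈ Icc 1 (min (N / pr s) (N / pr t)), f (pr s * y) * conj (f (pr t * y)) := by
      have e4 : ∀ y, ((‖G y‖ ^ 2 : ℝ) : ℂ) = ∑ s ∈ B, ∑ t ∈ B,
          (if y ≤ N / pr s then f (pr s * y) else 0) *
            conj (if y ≤ N / pr t then f (pr t * y) else 0) := by
        intro y
        have e5 : ((‖G y‖ ^ 2 : ℝ) : ℂ) = G y * conj (G y) := by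
          rw [Complex.mul_conj, Complex.normSq_eq_norm_sq]
        rw [e5, hG, map_sum, Finset.sum_mul_sum]
      push_cast at e4 ⊢
      rw [Finset.sum_congr rfl (fun y _ => e4 y), Finset.sum_comm]
      apply Finset.sum_congr rfl
      intro s hs
      rw [Finset.sum_comm]
      apply Finset.sum_congr rfl
      intro t ht
      have hsub : Icc 1 (min (N / pr s) (N / pr t)) ⊆ Icc 1 Y :=
        Finset.Icc_subset_Icc_right ((min_le_left _ _).trans (hle s hs))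
      symm
      rw [← Finset.sum_subset hsub]
      · apply Finset.sum_congr rfl
        intro y hy
        rw [Finset.mem_Icc] at hy
        rw [if_pos (by omega), if_pos (by omega)]
      · intro y hy hy'
        rw [Finset.mem_Icc] at hy hy'
        by_cases c1 : y ≤ N / pr s
        · rw [if_neg (by omega : ¬ y ≤ N / pr t)]; simp
        · rw [if_neg c1, zero_mul]
    have hnn : 0 ≤ ∑ y ∈ Icc 1 Y, ‖G y‖ ^ 2 := by positivity
    have e6 : ∑ y ∈ Icc 1 Y, ‖G y‖ ^ 2 = ‖((∑ y ∈ Icc 1 Y, ‖G y‖ ^ 2 : ℝ) : ℂ)‖ := by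
      rw [Complex.norm_real, Real.norm_of_nonneg hnn]
    rw [e6, e3]
    refine (norm_sum_le _ _).trans ?_
    apply Finset.sum_le_sum
    intro s _
    exact norm_sum_le _ _
  have h4 : (Y : ℝ) ≤ (N : ℝ) / P0 := Nat.cast_div_le
  have h5 : 0 ≤ ∑ y ∈ Icc 1 Y, ‖G y‖ ^ 2 := by positivity
  calc ‖∑ y ∈ Icc 1 Y, ((ArithmeticFunction.moebius y : ℤ) : ℂ) * G y‖ ^ 2
      ≤ (∑ y ∈ Icc 1 Y, ‖G y‖) ^ 2 := by
        apply pow_le_pow_left₀ (norm_nonneg _) h1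
    _ ≤ (Y : ℝ) * ∑ y ∈ Icc 1 Y, ‖G y‖ ^ 2 := h2
    _ ≤ ((N : ℝ) / P0) * ∑ y ∈ Icc 1 Y, ‖G y‖ ^ 2 := mul_le_mul_of_nonneg_right h4 h5
    _ ≤ _ := mul_le_mul_of_nonneg_left h3 (by positivity)

/-! ### one block -/

theorem kat_block (η : ℝ) (D i j k : ℕ) (f : ℕ → ℂ) (hη : 0 < η)
    (hfr : ∃ᶠ N : ℕ in atTop, (∑ s ∈ Bk D i j k, 1 / (pr s : ℝ)) * (η * N / 4) ≤
      ‖∑ s ∈ Bk D i j k, MS (fun y => f (pr s * y)) (N / pr s)‖) (Γ : ℕ → ℕ → ℝ)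
    (hΓ : ∀ P P' : ℕ, 1 ≤ P → 1 ≤ P' → P.Coprime D → P'.Coprime D → 0 ≤ Γ P P' ∧
      ∀ ε : ℝ, 0 < ε → ∃ M₀ : ℕ, ∀ M : ℕ, M₀ ≤ M →
      ‖∑ y ∈ Icc 1 M, f (P * y) * conj (f (P' * y))‖ ≤ (Γ P P' + ε) * M) :
    (η / 32) ^ 2 * ((Bk D i j k).card : ℝ) ^ 2 ≤
      ∑ s ∈ Bk D i j k, ∑ t ∈ Bk D i j k, Γ (pr s) (pr t) := by
  classical
  set B := Bk D i j k with hB
  set P0 : ℕ := 2 ^ (i + j + k) with hP0
  have hP01 : 1 ≤ P0 := Nat.one_le_two_pow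
  have hP0R : (0 : ℝ) < P0 := by exact_mod_cast hP01
  have hpr : ∀ s ∈ B, P0 ≤ pr s ∧ pr s ≤ 8 * P0 ∧ 1 ≤ pr s ∧ (pr s).Coprime D :=
    fun s hs => kat_pr hs
  -- for every e > 0
  have main : ∀ e : ℝ, 0 < e → (η / 32) ^ 2 * (B.card : ℝ) ^ 2 ≤
      ∑ s ∈ B, ∑ t ∈ B, (Γ (pr s) (pr t) + e) := by
    intro e he
    have hM : ∀ x : (ℕ × ℕ × ℕ) × (ℕ × ℕ × ℕ), ∃ M₀ : ℕ, x ∈ B ×ˢ B → ∀ M : ℕ, M₀ ≤ M →
        ‖∑ y ∈ Icc 1 M, f (pr x.1 * y) * conj (f (pr x.2 * y))‖ ≤ (Γ (pr x.1) (pr x.2) + e) * M := by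
      intro x
      by_cases hx : x ∈ B ×ˢ B
      · rw [Finset.mem_product] at hx
        obtain ⟨_, h2⟩ := hΓ (pr x.1) (pr x.2) (hpr _ hx.1).2.2.1 (hpr _ hx.2).2.2.1
          (hpr _ hx.1).2.2.2 (hpr _ hx.2).2.2.2
        obtain ⟨M₀, hM₀⟩ := h2 e he
        exact ⟨M₀, fun _ => hM₀⟩
      · exact ⟨0, fun h => absurd h hx⟩
    choose M₀ hM₀ using hM
    set MM : ℕ := (B ×ˢ B).sup M₀ with hMM
    obtain ⟨N, hN, hN1⟩ := (hfr.and_eventually (eventually_ge_atTop (8 * P0 * MM + 1))).exists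
    have hNR : (0 : ℝ) < N := by exact_mod_cast (by omega : 0 < N)
    have hcs := kat_cs f N P0 B hP01 (fun s hs => (hpr s hs).1)
    have hterm : ∀ s ∈ B, ∀ t ∈ B, ‖∑ y ∈ Icc 1 (min (N / pr s) (N / pr t)),
        f (pr s * y) * conj (f (pr t * y))‖ ≤ (Γ (pr s) (pr t) + e) * ((N : ℝ) / P0) := by
      intro s hs t ht
      obtain ⟨s1, s2, s3, s4⟩ := hpr s hs
      obtain ⟨t1, t2, t3, t4⟩ := hpr t ht
      have hst : (s, t) ∈ B ×ˢ B := Finset.mem_product.2 ⟨hs, ht⟩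
      have hle1 : MM ≤ N / pr s := by
        rw [Nat.le_div_iff_mul_le (by omega)]
        calc MM * pr s ≤ MM * (8 * P0) := Nat.mul_le_mul_left _ s2
          _ = 8 * P0 * MM := by ring
          _ ≤ N := by omega
      have hle2 : MM ≤ N / pr t := by
        rw [Nat.le_div_iff_mul_le (by omega)]
        calc MM * pr t ≤ MM * (8 * P0) := Nat.mul_le_mul_left _ t2
          _ = 8 * P0 * MM := by ring
          _ ≤ N := by omega
      have hle : M₀ (s, t) ≤ min (N / pr s) (N / pr t) :=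
        (Finset.le_sup (f := M₀) hst).trans (le_min hle1 hle2)
      refine (hM₀ (s, t) hst _ hle).trans ?_
      have hg0 : 0 ≤ Γ (pr s) (pr t) + e := by
        have := (hΓ (pr s) (pr t) s3 t3 s4 t4).1
        linarith
      apply mul_le_mul_of_nonneg_left _ hg0
      have h1 : (min (N / pr s) (N / pr t) : ℕ) ≤ N / P0 :=
        (min_le_left _ _).trans (Nat.div_le_div_left s1 hP01)
      have h2 : ((min (N / pr s) (N / pr t) : ℕ) : ℝ) ≤ ((N / P0 : ℕ) : ℝ) := by exact_mod_cast h1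
      exact h2.trans Nat.cast_div_le
    have hsum : ∑ s ∈ B, ∑ t ∈ B, ‖∑ y ∈ Icc 1 (min (N / pr s) (N / pr t)),
        f (pr s * y) * conj (f (pr t * y))‖ ≤
        (∑ s ∈ B, ∑ t ∈ B, (Γ (pr s) (pr t) + e)) * ((N : ℝ) / P0) := by
      rw [Finset.sum_mul]
      apply Finset.sum_le_sum
      intro s hs
      rw [Finset.sum_mul]
      apply Finset.sum_le_sum
      intro t ht
      exact hterm s hs t ht
    -- lower bound
    have hA : (B.card : ℝ) / (8 * P0) ≤ ∑ s ∈ B, 1 / (pr s : ℝ) := by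
      have : ∑ s ∈ B, (1 : ℝ) / (8 * P0) ≤ ∑ s ∈ B, 1 / (pr s : ℝ) := by
        apply Finset.sum_le_sum
        intro s hs
        obtain ⟨s1, s2, s3, s4⟩ := hpr s hs
        apply one_div_le_one_div_of_le
        · exact_mod_cast s3
        · exact_mod_cast s2
      rw [Finset.sum_const, nsmul_eq_mul, mul_one_div] at this
      exact this
    have hlow : (B.card : ℝ) / (8 * P0) * (η * N / 4) ≤
        ‖∑ s ∈ B, MS (fun y => f (pr s * y)) (N / pr s)‖ :=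
      (mul_le_mul_of_nonneg_right hA (by positivity)).trans hN
    have hsq : ((B.card : ℝ) / (8 * P0) * (η * N / 4)) ^ 2 ≤
        ((N : ℝ) / P0) * ((∑ s ∈ B, ∑ t ∈ B, (Γ (pr s) (pr t) + e)) * ((N : ℝ) / P0)) := by
      refine (pow_le_pow_left₀ (by positivity) hlow 2).trans (hcs.trans ?_)
      exact mul_le_mul_of_nonneg_left hsum (by positivity)
    have e1 : ((B.card : ℝ) / (8 * P0) * (η * N / 4)) ^ 2 =
        ((N : ℝ) / P0) ^ 2 * ((η / 32) ^ 2 * (B.card : ℝ) ^ 2) := by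
      field_simp; ring
    have e2 : ((N : ℝ) / P0) * ((∑ s ∈ B, ∑ t ∈ B, (Γ (pr s) (pr t) + e)) * ((N : ℝ) / P0)) =
        ((N : ℝ) / P0) ^ 2 * (∑ s ∈ B, ∑ t ∈ B, (Γ (pr s) (pr t) + e)) := by ring
    rw [e1, e2] at hsq
    exact le_of_mul_le_mul_left hsq (by positivity)
  apply le_of_forall_pos_le_add
  intro e he
  rcases Nat.eq_zero_or_pos B.card with h0 | h0
  · have hBe : B = ∅ := Finset.card_eq_zero.1 h0
    rw [hBe]; simp; exact he.le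
  have hc : (0 : ℝ) < (B.card : ℝ) ^ 2 := by
    have : (0 : ℝ) < B.card := by exact_mod_cast h0
    positivity
  have h1 := main (e / (B.card : ℝ) ^ 2) (by positivity)
  have h2 : ∑ s ∈ B, ∑ t ∈ B, (Γ (pr s) (pr t) + e / (B.card : ℝ) ^ 2) =
      ∑ s ∈ B, ∑ t ∈ B, Γ (pr s) (pr t) + e := by
    simp_rw [Finset.sum_add_distrib, Finset.sum_const, nsmul_eq_mul]
    field_simp
  rw [h2] at h1
  exact h1

/-! ### sums over the primes -/

theorem kat_Am (D : ℕ) (R : Finset ℕ) : Am D R = ∑ p ∈ R.biUnion (PB D), 1 / (p : ℝ) := by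
  unfold Am
  rw [Finset.sum_biUnion (kat_pd D R)]

theorem kat_B (η : ℝ) (D : ℕ) (R : Finset ℕ) (hη : 0 < η) (hR : ∀ i ∈ R, 24 / η ≤ (2 : ℝ) ^ i) :
    ∑ p ∈ R.biUnion (PB D), 1 / (p : ℝ) ^ 2 ≤ (∑ p ∈ R.biUnion (PB D), 1 / (p : ℝ)) * (η / 24) := by
  rw [Finset.sum_mul]
  apply Finset.sum_le_sum
  intro p hp
  obtain ⟨i, hi, hpi⟩ := Finset.mem_biUnion.1 hp
  obtain ⟨a1, a2, a3, a4⟩ := kat_mem hpi
  have hp0 : (0 : ℝ) < p := by exact_mod_cast a1.pos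
  have h1 : (2 : ℝ) ^ i ≤ p := by exact_mod_cast a2.le
  have h2 : 24 / η ≤ (p : ℝ) := (hR i hi).trans h1
  rw [div_le_iff₀ hη] at h2
  have h3 : 1 / (p : ℝ) ^ 2 = 1 / p * (1 / p) := by field_simp
  rw [h3]
  apply mul_le_mul_of_nonneg_left _ (by positivity)
  rw [div_le_div_iff₀ hp0 (by norm_num)]
  linarith

theorem kat_sqrt {η A : ℝ} (hη : 0 < η) (hA : 64 / η ^ 2 ≤ A) : Real.sqrt A ≤ A * (η / 8) := by
  have hA0 : 0 < A := lt_of_lt_of_le (by positivity) hA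
  have h1 : 8 / η ≤ Real.sqrt A := by
    apply Real.le_sqrt_of_sq_le
    have : (8 / η) ^ 2 = 64 / η ^ 2 := by ring
    rw [this]; exact hA
  rw [div_le_iff₀ hη] at h1
  have h2 : Real.sqrt A * Real.sqrt A = A := Real.mul_self_sqrt hA0.le
  have h3 : 0 ≤ Real.sqrt A := Real.sqrt_nonneg A
  nlinarith

theorem st_KAT (hTKB : ST_TKB) : ST_KAT := by
  classical
  intro η D R₁ R₂ R₃ f hη hD hf hR hA1 hA2 hA3 hfr
  set S₁ := R₁.biUnion (PB D) with hS1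
  set S₂ := R₂.biUnion (PB D) with hS2
  set S₃ := R₃.biUnion (PB D) with hS3
  have hprime : ∀ R : Finset ℕ, ∀ p ∈ R.biUnion (PB D), p.Prime := by
    intro R p hp
    obtain ⟨i, _, hpi⟩ := Finset.mem_biUnion.1 hp
    exact (kat_mem hpi).1
  obtain ⟨C, hC0, hC⟩ := hTKB S₁ S₂ S₃ (hprime R₁) (hprime R₂) (hprime R₃) _ _ _ _ _ _ rfl rfl rfl
    rfl rfl rfl
  rw [kat_Am] at hA1 hA2 hA3
  set A₁ := ∑ p ∈ S₁, 1 / (p : ℝ) with hA1d
  set A₂ := ∑ p ∈ S₂, 1 / (p : ℝ) with hA2d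
  set A₃ := ∑ p ∈ S₃, 1 / (p : ℝ) with hA3d
  have hB1 := kat_B η D R₁ hη (fun i hi => hR i (by simp [hi]))
  have hB2 := kat_B η D R₂ hη (fun i hi => hR i (by simp [hi]))
  have hB3 := kat_B η D R₃ hη (fun i hi => hR i (by simp [hi]))
  have hs1 := kat_sqrt hη hA1
  have hs2 := kat_sqrt hη hA2
  have hs3 := kat_sqrt hη hA3
  have hp1 : 0 < A₁ := lt_of_lt_of_le (by positivity) hA1
  have hp2 : 0 < A₂ := lt_of_lt_of_le (by positivity) hA2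
  have hp3 : 0 < A₃ := lt_of_lt_of_le (by positivity) hA3
  set A : ℝ := A₁ * A₂ * A₃ with hAd
  have hAp : 0 < A := by positivity
  -- blocks
  have hblocks : A = ∑ i ∈ R₁, ∑ j ∈ R₂, ∑ k ∈ R₃, ∑ s ∈ Bk D i j k, 1 / (pr s : ℝ) := by
    have h1 := kat_sum D R₁ R₂ R₃ (fun p q r => 1 / ((p * (q * r) : ℕ) : ℝ))
    have h2 : A = ∑ p ∈ R₁.biUnion (PB D), ∑ q ∈ R₂.biUnion (PB D), ∑ r ∈ R₃.biUnion (PB D),
        1 / ((p * (q * r) : ℕ) : ℝ) := by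
      have e : ∀ p ∈ S₁, ∑ q ∈ R₂.biUnion (PB D), ∑ r ∈ R₃.biUnion (PB D),
          1 / ((p * (q * r) : ℕ) : ℝ) = 1 / (p : ℝ) * (A₂ * A₃) := by
        intro p _
        rw [hA2d, hA3d, Finset.sum_mul_sum, Finset.mul_sum]
        apply Finset.sum_congr rfl
        intro q _
        rw [Finset.mul_sum]
        apply Finset.sum_congr rfl
        intro r _
        push_cast
        simp only [one_div, mul_inv]
      rw [Finset.sum_congr rfl e, ← Finset.sum_mul, hAd, mul_assoc]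
    rw [h2, h1]
    rfl
  have hex : ∃ i ∈ R₁, ∃ j ∈ R₂, ∃ k ∈ R₃, ∃ᶠ N : ℕ in atTop,
      (∑ s ∈ Bk D i j k, 1 / (pr s : ℝ)) * (η * N / 4) ≤
      ‖∑ s ∈ Bk D i j k, MS (fun y => f (pr s * y)) (N / pr s)‖ := by
    by_contra hcon
    have hev : ∀ᶠ N : ℕ in atTop, ∀ i ∈ R₁, ∀ j ∈ R₂, ∀ k ∈ R₃,
        ‖∑ s ∈ Bk D i j k, MS (fun y => f (pr s * y)) (N / pr s)‖ ≤
        (∑ s ∈ Bk D i j k, 1 / (pr s : ℝ)) * (η * N / 4) := by
      rw [eventually_all_finset]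
      intro i hi
      rw [eventually_all_finset]
      intro j hj
      rw [eventually_all_finset]
      intro k hk
      have h1 : ¬ ∃ᶠ N : ℕ in atTop, (∑ s ∈ Bk D i j k, 1 / (pr s : ℝ)) * (η * N / 4) ≤
          ‖∑ s ∈ Bk D i j k, MS (fun y => f (pr s * y)) (N / pr s)‖ := by
        intro h; exact hcon ⟨i, hi, j, hj, k, hk, h⟩
      rw [not_frequently] at h1
      filter_upwards [h1] with N hN
      exact (not_le.1 hN).le
    obtain ⟨N0, hN0⟩ := exists_nat_gt ((4 * C / (A * η)) ^ 2)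
    obtain ⟨N, hN1, hN2, hN3⟩ := (hfr.and_eventually
      (hev.and (eventually_ge_atTop (N0 + 1)))).exists
    have hNR : (0 : ℝ) < N := by exact_mod_cast (by omega : 0 < N)
    have hN0N : (N0 : ℝ) ≤ N := by exact_mod_cast (by omega : N0 ≤ N)
    have hsq : 4 * C / (A * η) < Real.sqrt N := by
      apply Real.lt_sqrt_of_sq_lt
      linarith
    have hsqpos : 0 < Real.sqrt N := Real.sqrt_pos.2 hNR
    have hmul : Real.sqrt N * Real.sqrt N = N := Real.mul_self_sqrt hNR.le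
    have hCN : C * Real.sqrt N < A * η * N / 4 := by
      rw [div_lt_iff₀ (by positivity)] at hsq
      have : 4 * C * Real.sqrt N < Real.sqrt N * (A * η) * Real.sqrt N :=
        mul_lt_mul_of_pos_right hsq hsqpos
      nlinarith
    have hTK := hC f N hf
    set X : ℂ := ∑ p ∈ S₁, ∑ q ∈ S₂, ∑ r ∈ S₃, MS (fun y => f (p * (q * r) * y)) (N / (p * (q * r)))
      with hX
    have hXsum : X = ∑ i ∈ R₁, ∑ j ∈ R₂, ∑ k ∈ R₃, ∑ s ∈ Bk D i j k,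
        MS (fun y => f (pr s * y)) (N / pr s) := by
      rw [hX]
      exact kat_sum D R₁ R₂ R₃ (fun p q r => MS (fun y => f (p * (q * r) * y)) (N / (p * (q * r))))
    have hXle : ‖X‖ ≤ A * (η * N / 4) := by
      rw [hXsum, hblocks, Finset.sum_mul]
      refine (norm_sum_le _ _).trans (Finset.sum_le_sum fun i hi => ?_)
      rw [Finset.sum_mul]
      refine (norm_sum_le _ _).trans (Finset.sum_le_sum fun j hj => ?_)
      rw [Finset.sum_mul]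
      refine (norm_sum_le _ _).trans (Finset.sum_le_sum fun k hk => ?_)
      exact hN2 i hi j hj k hk
    have hnorm : ‖((A : ℝ) : ℂ) * MS f N‖ = A * ‖MS f N‖ := by
      rw [norm_mul, Complex.norm_real, Real.norm_of_nonneg hAp.le]
    have htri : A * ‖MS f N‖ ≤ ‖((A : ℝ) : ℂ) * MS f N + X‖ + ‖X‖ := by
      rw [← hnorm]
      have := norm_sub_le (((A : ℝ) : ℂ) * MS f N + X) X
      rwa [add_sub_cancel_right] at this
    have hlowA : A * (η * N) ≤ A * ‖MS f N‖ := mul_le_mul_of_nonneg_left hN1 hAp.le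
    have hE1 : A₂ * A₃ * (Real.sqrt A₁ + ∑ p ∈ S₁, 1 / (p : ℝ) ^ 2) ≤
        A₂ * A₃ * (A₁ * (η / 8) + A₁ * (η / 24)) :=
      mul_le_mul_of_nonneg_left (add_le_add hs1 hB1) (by positivity)
    have hE2 : A₁ * A₃ * (Real.sqrt A₂ + ∑ p ∈ S₂, 1 / (p : ℝ) ^ 2) ≤
        A₁ * A₃ * (A₂ * (η / 8) + A₂ * (η / 24)) :=
      mul_le_mul_of_nonneg_left (add_le_add hs2 hB2) (by positivity)
    have hE3 : A₁ * A₂ * (Real.sqrt A₃ + ∑ p ∈ S₃, 1 / (p : ℝ) ^ 2) ≤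
        A₁ * A₂ * (A₃ * (η / 8) + A₃ * (η / 24)) :=
      mul_le_mul_of_nonneg_left (add_le_add hs3 hB3) (by positivity)
    have hEs : A₂ * A₃ * (A₁ * (η / 8) + A₁ * (η / 24)) + A₁ * A₃ * (A₂ * (η / 8) + A₂ * (η / 24)) +
        A₁ * A₂ * (A₃ * (η / 8) + A₃ * (η / 24)) = A * η / 2 := by
      rw [hAd]; ring
    have hE : (N : ℝ) * (A₂ * A₃ * (Real.sqrt A₁ + ∑ p ∈ S₁, 1 / (p : ℝ) ^ 2) +
        A₁ * A₃ * (Real.sqrt A₂ + ∑ p ∈ S₂, 1 / (p : ℝ) ^ 2) +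
        A₁ * A₂ * (Real.sqrt A₃ + ∑ p ∈ S₃, 1 / (p : ℝ) ^ 2)) ≤ N * (A * η / 2) := by
      apply mul_le_mul_of_nonneg_left _ hNR.le
      rw [← hEs]
      exact add_le_add (add_le_add hE1 hE2) hE3
    have hTK2 : ‖((A : ℝ) : ℂ) * MS f N + X‖ ≤ N * (A * η / 2) + C * Real.sqrt N :=
      hTK.trans (by linarith)
    nlinarith
  obtain ⟨i, hi, j, hj, k, hk, hfreq⟩ := hex
  exact ⟨i, hi, j, hj, k, hk, fun Γ hΓ => kat_block η D i j k f hη hfreq Γ hΓ⟩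

end Pool.Agent.Helper16.MD
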